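import Pool.Agent.Helper93.TS.Stmts

/-!
# Two-scale sums-differences: module cdd
-/

set_option autoImplicit false

namespace Pool.Agent.Helper93.TS

open Pool.Agent.Helper8.Kak

theorem st_cdd (h1 : ST_PRE) : ST_cdd := by
  intro m N D
  obtain ⟨hp, lk, κ0, -, -, -, -, -, -, dnb, -, -⟩ := h1 m N D
  have hN : (1 : ℝ) ≤ (N : ℝ) := by exact_mod_cast D.hN
  have hN0 : (0 : ℝ) < (N : ℝ) := by linarith
  have hδ : 0 < cd N := by
    unfold cd
    positivity
  have hM : 1 ≤ cd N * ((N * N : ℕ) : ℝ) := by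
    unfold cd
    push_cast
    rw [← mul_assoc, one_div, inv_mul_cancel₀ hN0.ne', one_mul]
    exact hN
  have hM0 : (0 : ℝ) < ((N * N : ℕ) : ℝ) := by
    push_cast
    positivity
  refine cost_le D.V _ _ VV.d1 (by decide +kernel) _ fun r hr => ?_
  simp only [Finset.mem_insert, Finset.mem_singleton, forall_eq_or_imp, forall_eq, Dat.V_w,
    Dat.V_P1c, Dat.V_b] at hr
  have h2 : CE D.pz (D.V VV.d1) r ≤ m * (Ex D.pz (fun y => dn (N * N) (D.vb y)) + Real.log 7) := by
    refine Pool.Agent.Helper89.KakGeo.CE_known hp hδ r (fun y => D.v (D.l (z1 y)))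
      (fun y i => if D.vb y = 0 then 0 else
        (cd N * (D.vw y i : ℤ) - cd N * (D.Pc (D.l (z0 y)) (D.T (zT y)) i : ℤ))
          * (((N * N : ℕ) : ℝ) / D.vb y))
      (fun y => 1 + ((N * N : ℕ) : ℝ) / max |(D.vb y : ℝ)| 1) (a := 2) (by norm_num) (by norm_num)
      ?_ ?_ ?_
    · intro y
      have : 0 ≤ ((N * N : ℕ) : ℝ) / max |(D.vb y : ℝ)| 1 := by positivity
      linarith
    · intro y y' _ _ h3
      obtain ⟨e1, e2, e3⟩ := hr y y' h3
      refine ⟨?_, by rw [e3]⟩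
      funext i
      rw [e1, e2, e3]
    · intro y h0 i
      by_cases e : D.vb y = 0
      · rw [if_pos e, sub_zero, e, Int.cast_zero, abs_zero, max_eq_right (by norm_num : (0 : ℝ) ≤ 1),
          div_one]
        refine (D.hv _ _).trans ?_
        nlinarith
      · rw [if_neg e]
        have hc : (D.vb y : ℝ) ≠ 0 := by exact_mod_cast e
        have hc1 : 1 ≤ |(D.vb y : ℝ)| := by
          have := Int.one_le_abs e
          exact_mod_cast this
        rw [max_eq_left hc1]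
        have e1 : D.v (D.l (z1 y)) i
            - (cd N * (D.vw y i : ℤ) - cd N * (D.Pc (D.l (z0 y)) (D.T (zT y)) i : ℤ))
              * (((N * N : ℕ) : ℝ) / D.vb y)
            = ((D.vb y : ℝ) / ((N * N : ℕ) : ℝ) * D.v (D.l (z1 y)) i
              - (cd N * (D.vw y i : ℤ) - cd N * (D.Pc (D.l (z0 y)) (D.T (zT y)) i : ℤ)))
              * (((N * N : ℕ) : ℝ) / D.vb y) := by
          field_simp
        rw [e1, abs_mul, abs_div, abs_of_pos hM0]
        have hF := Pool.Agent.Helper89.KakGeo.cell_err hδ (frm D.x D.v (D.l (z0 y)) (D.T (zT y)) (D.vb y) (D.v (D.l (z1 y)))) i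
        have hP := Pool.Agent.Helper89.KakGeo.cell_err hδ (pnt D.x D.v (D.l (z0 y)) (D.T (zT y))) i
        have e2 : frm D.x D.v (D.l (z0 y)) (D.T (zT y)) (D.vb y) (D.v (D.l (z1 y))) i
            = pnt D.x D.v (D.l (z0 y)) (D.T (zT y)) i
              + (D.vb y : ℝ) / ((N * N : ℕ) : ℝ) * D.v (D.l (z1 y)) i := rfl
        have h3 : |(D.vb y : ℝ) / ((N * N : ℕ) : ℝ) * D.v (D.l (z1 y)) i
            - (cd N * (D.vw y i : ℤ) - cd N * (D.Pc (D.l (z0 y)) (D.T (zT y)) i : ℤ))| ≤ 2 * cd N := by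
          unfold Dat.vw Dat.Pc
          rw [abs_le] at hF hP ⊢
          constructor <;> linarith [hF.1, hF.2, hP.1, hP.2]
        have h4 : 0 ≤ ((N * N : ℕ) : ℝ) / |(D.vb y : ℝ)| := by positivity
        calc |(D.vb y : ℝ) / ((N * N : ℕ) : ℝ) * D.v (D.l (z1 y)) i
              - (cd N * (D.vw y i : ℤ) - cd N * (D.Pc (D.l (z0 y)) (D.T (zT y)) i : ℤ))|
              * (((N * N : ℕ) : ℝ) / |(D.vb y : ℝ)|)
            ≤ 2 * cd N * (((N * N : ℕ) : ℝ) / |(D.vb y : ℝ)|) := mul_le_mul_of_nonneg_right h3 h4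
          _ ≤ 2 * (1 + ((N * N : ℕ) : ℝ) / |(D.vb y : ℝ)|) * cd N := by nlinarith
  refine h2.trans (mul_le_kk κ0 ?_)
  have h7 : Real.log 7 ≤ Real.log 11 := Real.log_le_log (by norm_num) (by norm_num)
  linarith [dnb, log11_le]

end Pool.Agent.Helper93.TS
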